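import Pool.Agent.NPC.Defs

set_option autoImplicit false

/-!
# Two edge-disjoint perfect matchings, the first one monochromatic
-/

namespace Pool.Agent.X130.PM2

open Pool.Agent.NPC

/-- Instances of COL-2PM: the lists `U`, `V` of the vertices of the two sides, the list of the edges
`(u, v)` of colour 1 and the list of the edges of colour 2. -/
abbrev Inst : Type := (List ℕ × List ℕ) × (List (ℕ × ℕ) × List (ℕ × ℕ))

/-- The data describe a simple bipartite graph with a colouring of the edges: the vertices of each side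
are listed once, the edges join a vertex of `U` to a vertex of `V`, no edge is listed twice. -/
def Valid (I : Inst) : Prop :=
  I.1.1.Nodup ∧ I.1.2.Nodup ∧ (∀ e ∈ I.2.1 ++ I.2.2, e.1 ∈ I.1.1 ∧ e.2 ∈ I.1.2) ∧
    (I.2.1 ++ I.2.2).Nodup

/-- `M` is a perfect matching of the bipartite graph with sides `U`, `V` and edge list `E`. -/
def IsPM (U V : List ℕ) (E : List (ℕ × ℕ)) (M : Finset (ℕ × ℕ)) : Prop :=
  (∀ e ∈ M, e ∈ E) ∧ (∀ u ∈ U, ∃! v, (u, v) ∈ M) ∧ ∀ v ∈ V, ∃! u, (u, v) ∈ M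

/-- COL-2PM: there are edge-disjoint perfect matchings `M₁`, `M₂` such that all edges of `M₁` have
colour 1. -/
def COL2PM (I : Inst) : Prop :=
  Valid I ∧ ∃ M₁ M₂ : Finset (ℕ × ℕ), IsPM I.1.1 I.1.2 (I.2.1 ++ I.2.2) M₁ ∧
    IsPM I.1.1 I.1.2 (I.2.1 ++ I.2.2) M₂ ∧ (∀ e ∈ M₁, e ∈ I.2.1) ∧ Disjoint M₁ M₂

end Pool.Agent.X130.PM2
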