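import Mathlib
import Pool.Agent.X130.PM2.Defs
import Pool.Agent.X130.Sat
import Pool.Agent.H634R2.Clique
import Pool.Agent.X130.RB.UndNP

set_option autoImplicit false

/-!
# The reduction from 3SAT to COL-2PM
-/

namespace Pool.Agent.X130.PM2

open Pool.Agent.NPC Pool.Agent.NPC.H634R2

/-- the successor on a cycle of length `L` (numbers are divided into blocks of length `L`) -/
def nxt (L y : ℕ) : ℕ := y / L * L + (y % L + 1) % L

/-- the vertex of `V` of a slot -/
def yC (L : ℕ) (p : Lit ℕ × ℕ) : ℕ := p.1.2 * L + 2 * p.2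

/-- the vertex of `U` of a slot -/
def xC (L : ℕ) (p : Lit ℕ × ℕ) : ℕ := p.1.2 * L + 2 * p.2 + (if p.1.1 then 0 else 1)

/-- the vertices of a side -/
def ver (m : ℕ) : List ℕ :=
  (List.range (3 * m * (6 * m))).map (fun x => 2 * x) ++ (List.range m).map (fun j => 2 * j + 1)

/-- edges of colour 1 -/
def C1 (m : ℕ) : List (ℕ × ℕ) :=
  (List.range (3 * m * (6 * m))).map (fun x => (2 * x, 2 * x)) ++
    ((List.range (3 * m * (6 * m))).map (fun y => (2 * nxt (6 * m) y, 2 * y)) ++
      (List.range m).map (fun j => (2 * j + 1, 2 * j + 1)))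

/-- edges of colour 2 -/
def C2 (φ : F3) : List (ℕ × ℕ) :=
  (lits φ).flatMap (fun p => [(2 * (p.2 / 3) + 1, 2 * yC (6 * φ.length) p),
    (2 * xC (6 * φ.length) p, 2 * (p.2 / 3) + 1)])

/-- the reduction -/
def red (φ : F3) : Inst := ((ver φ.length, ver φ.length), (C1 φ.length, C2 φ))

theorem mem_ver {m a : ℕ} : a ∈ ver m ↔ (∃ x < 3 * m * (6 * m), a = 2 * x) ∨ ∃ j < m, a = 2 * j + 1 := by
  unfold ver
  simp only [List.mem_append, List.mem_map, List.mem_range, eq_comm]

theorem mem_C1 {m a b : ℕ} : (a, b) ∈ C1 m ↔ (∃ x < 3 * m * (6 * m), a = 2 * x ∧ b = 2 * x) ∨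
    (∃ y < 3 * m * (6 * m), a = 2 * nxt (6 * m) y ∧ b = 2 * y) ∨
    ∃ j < m, a = 2 * j + 1 ∧ b = 2 * j + 1 := by
  unfold C1
  simp only [List.mem_append, List.mem_map, List.mem_range, Prod.mk.injEq, eq_comm]

theorem mem_C2 {φ : F3} {a b : ℕ} : (a, b) ∈ C2 φ ↔ ∃ p ∈ lits φ,
    (a = 2 * (p.2 / 3) + 1 ∧ b = 2 * yC (6 * φ.length) p) ∨
    (a = 2 * xC (6 * φ.length) p ∧ b = 2 * (p.2 / 3) + 1) := by
  unfold C2
  simp only [List.mem_flatMap, List.mem_cons, List.not_mem_nil, or_false, Prod.mk.injEq]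

theorem lits_lt {φ : F3} {p : Lit ℕ × ℕ} (hp : p ∈ lits φ) : p.2 < 3 * φ.length := by
  have h : p.2 ∈ gV φ := List.mem_map.2 ⟨p, hp, rfl⟩
  exact mem_gV.1 h

theorem lits_var {φ : F3} (hφ : Small φ) {p : Lit ℕ × ℕ} (hp : p ∈ lits φ) :
    p.1.2 < 3 * φ.length := by
  obtain ⟨l, t⟩ := p
  obtain ⟨c, hc, hl⟩ := mem_lits.1 hp
  have h1 := hφ c (List.mem_of_getElem? hc)
  have h2 := List.mem_of_getElem? hl
  simp only [List.mem_cons, List.not_mem_nil, or_false] at h2
  rcases h2 with rfl | rfl | rfl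
  · exact h1.1
  · exact h1.2.1
  · exact h1.2.2

/-! ### Arithmetic of blocks -/

theorem div_blk {L s k : ℕ} (hk : k < L) : (s * L + k) / L = s := by
  rw [mul_comm, Nat.mul_add_div (by omega), Nat.div_eq_of_lt hk, add_zero]

theorem mod_blk {L s k : ℕ} (hk : k < L) : (s * L + k) % L = k := by
  rw [mul_comm, Nat.mul_add_mod, Nat.mod_eq_of_lt hk]

theorem blk_inj {L s k s' k' : ℕ} (hk : k < L) (hk' : k' < L) (h : s * L + k = s' * L + k') :
    s = s' ∧ k = k' := by
  have h1 := div_blk (s := s) hk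
  have h2 := div_blk (s := s') hk'
  have h3 := mod_blk (s := s) hk
  have h4 := mod_blk (s := s') hk'
  rw [h] at h1 h3
  exact ⟨h1.symm.trans h2, h3.symm.trans h4⟩

theorem blk_lt {L s k N : ℕ} (hk : k < L) (hs : s < N) : s * L + k < N * L := by
  have : (s + 1) * L ≤ N * L := Nat.mul_le_mul_right _ hs
  have h2 : (s + 1) * L = s * L + L := by ring
  omega

theorem nxt_blk {L s k : ℕ} (hk : k < L) : nxt L (s * L + k) = s * L + (k + 1) % L := by
  unfold nxt
  rw [div_blk hk, mod_blk hk]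

theorem exists_blk {L N y : ℕ} (hy : y < N * L) : ∃ s k, s < N ∧ k < L ∧ y = s * L + k := by
  have hL : 0 < L := by
    rcases Nat.eq_zero_or_pos L with h | h
    · rw [h, mul_zero] at hy; omega
    · exact h
  refine ⟨y / L, y % L, ?_, Nat.mod_lt _ hL, (Nat.div_add_mod' y L).symm⟩
  rwa [Nat.div_lt_iff_lt_mul hL]

theorem nxt_lt {L N y : ℕ} (hy : y < N * L) : nxt L y < N * L := by
  obtain ⟨s, k, hs, hk, rfl⟩ := exists_blk hy
  rw [nxt_blk hk]
  exact blk_lt (Nat.mod_lt _ (by omega)) hs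

theorem succ_mod {L k : ℕ} (hk : k < L) : (k + 1) % L = if k + 1 = L then 0 else k + 1 := by
  split_ifs with h
  · rw [h, Nat.mod_self]
  · exact Nat.mod_eq_of_lt (by omega)

theorem nxt_inj {L N y y' : ℕ} (hy : y < N * L) (hy' : y' < N * L) (h : nxt L y = nxt L y') :
    y = y' := by
  obtain ⟨s, k, hs, hk, rfl⟩ := exists_blk hy
  obtain ⟨s', k', hs', hk', rfl⟩ := exists_blk hy'
  rw [nxt_blk hk, nxt_blk hk'] at h
  obtain ⟨h1, h2⟩ := blk_inj (Nat.mod_lt _ (by omega)) (Nat.mod_lt _ (by omega)) h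
  rw [succ_mod hk, succ_mod hk'] at h2
  subst h1
  split_ifs at h2 <;> omega

theorem nxt_ne {L N y : ℕ} (hL : 2 ≤ L) (hy : y < N * L) : nxt L y ≠ y := by
  obtain ⟨s, k, hs, hk, rfl⟩ := exists_blk hy
  rw [nxt_blk hk, succ_mod hk]
  split_ifs <;> omega

theorem valid_red {φ : F3} (hφ : Small φ) : Valid (red φ) := by
  have hver : (ver φ.length).Nodup := by
    unfold ver
    rw [List.nodup_append']
    refine ⟨List.nodup_range.map (fun a b (h : 2 * a = 2 * b) => by omega),
      List.nodup_range.map (fun a b (h : 2 * a + 1 = 2 * b + 1) => by omega), ?_⟩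
    intro x hx hx'
    simp only [List.mem_map] at hx hx'
    obtain ⟨a, _, ha⟩ := hx
    obtain ⟨b, _, hb⟩ := hx'
    omega
  refine ⟨hver, hver, ?_, ?_⟩
  · rintro ⟨a, b⟩ he
    simp only [red, List.mem_append] at he ⊢
    rw [mem_C1, mem_C2] at he
    rw [mem_ver, mem_ver]
    rcases he with (⟨x, hx, rfl, rfl⟩ | ⟨x, hx, rfl, rfl⟩ | ⟨x, hx, rfl, rfl⟩) |
      ⟨p, hp, ⟨rfl, rfl⟩ | ⟨rfl, rfl⟩⟩
    · exact ⟨Or.inl ⟨x, hx, rfl⟩, Or.inl ⟨x, hx, rfl⟩⟩
    · exact ⟨Or.inl ⟨_, nxt_lt hx, rfl⟩, Or.inl ⟨x, hx, rfl⟩⟩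
    · exact ⟨Or.inr ⟨x, hx, rfl⟩, Or.inr ⟨x, hx, rfl⟩⟩
    · have h1 := lits_lt hp
      have h2 := lits_var hφ hp
      exact ⟨Or.inr ⟨_, by omega, rfl⟩, Or.inl ⟨_, blk_lt (by omega) h2, rfl⟩⟩
    · have h1 := lits_lt hp
      have h2 := lits_var hφ hp
      refine ⟨Or.inl ⟨_, ?_, rfl⟩, Or.inr ⟨_, by omega, rfl⟩⟩
      unfold xC
      rw [add_assoc]
      exact blk_lt (by split_ifs <;> omega) h2
  · simp only [red]
    unfold C1 C2
    rw [List.nodup_append', List.nodup_append', List.nodup_append']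
    refine ⟨⟨?_, ⟨?_, ?_, ?_⟩, ?_⟩, ?_, ?_⟩
    · exact List.nodup_range.map (fun a b h => by simp only [Prod.mk.injEq] at h; omega)
    · exact List.nodup_range.map (fun a b h => by simp only [Prod.mk.injEq] at h; omega)
    · exact List.nodup_range.map (fun a b h => by simp only [Prod.mk.injEq] at h; omega)
    · intro x hx hx'
      simp only [List.mem_map] at hx hx'
      obtain ⟨a, _, rfl⟩ := hx
      obtain ⟨b, _, hb⟩ := hx'
      simp only [Prod.mk.injEq] at hb
      omega
    · intro x hx hx'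
      simp only [List.mem_append, List.mem_map, List.mem_range] at hx hx'
      obtain ⟨a, ha, rfl⟩ := hx
      rcases hx' with ⟨b, hb', hb⟩ | ⟨b, _, hb⟩
      · simp only [Prod.mk.injEq] at hb
        have hL : 2 ≤ 6 * φ.length := by
          rcases Nat.eq_zero_or_pos φ.length with h | h
          · rw [h] at hb'; simp at hb'
          · omega
        have := nxt_ne hL hb'
        omega
      · simp only [Prod.mk.injEq] at hb
        omega
    · rw [List.nodup_flatMap]
      refine ⟨fun p _ => ?_, ?_⟩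
      · simp only [List.nodup_cons, List.mem_cons, List.not_mem_nil, or_false, Prod.mk.injEq,
          not_false_eq_true, List.nodup_nil, and_true]
        omega
      · have h1 := List.pairwise_map.1 (lits_snd_nodup φ)
        refine (List.Pairwise.and_mem.1 h1).imp ?_
        rintro p q ⟨hp, hq, hpq⟩ a ha hb
        have h1 := lits_lt hp
        have h2 := lits_lt hq
        simp only [List.mem_cons, List.not_mem_nil, or_false] at ha hb
        rcases ha with rfl | rfl <;> rcases hb with hb | hb <;> simp only [Prod.mk.injEq] at hb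
        · have h3 : p.1.2 * (6 * φ.length) + 2 * p.2 = q.1.2 * (6 * φ.length) + 2 * q.2 := by
            have := hb.2
            unfold yC at this
            omega
          have := (blk_inj (by omega) (by omega) h3).2
          omega
        · omega
        · omega
        · have h3 : p.1.2 * (6 * φ.length) + (2 * p.2 + (if p.1.1 then 0 else 1)) =
              q.1.2 * (6 * φ.length) + (2 * q.2 + (if q.1.1 then 0 else 1)) := by
            have := hb.1
            unfold xC at this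
            omega
          have := (blk_inj (by split_ifs <;> omega) (by split_ifs <;> omega) h3).2
          split_ifs at this <;> omega
    · rintro ⟨a, b⟩ hx hx'
      have h1 : (a, b) ∈ C1 φ.length := hx
      have h2 : (a, b) ∈ C2 φ := hx'
      rw [mem_C1] at h1
      rw [mem_C2] at h2
      obtain ⟨p, _, h2⟩ := h2
      rcases h1 with ⟨x, _, h1⟩ | ⟨x, _, h1⟩ | ⟨x, _, h1⟩ <;> omega

end Pool.Agent.X130.PM2
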