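import Mathlib
import Pool.Agent.X130.PM2.Red

set_option autoImplicit false

/-!
# Correctness of the reduction from 3SAT to COL-2PM
-/

namespace Pool.Agent.X130.PM2

open Pool.Agent.NPC Pool.Agent.NPC.H634R2

/-! ### Perfect matchings from injections -/

theorem isPM_of_inj {V : List ℕ} {E : List (ℕ × ℕ)} (f : ℕ → ℕ)
    (hf : ∀ v ∈ V, (f v, v) ∈ E) (hV : ∀ v ∈ V, f v ∈ V)
    (hinj : ∀ v ∈ V, ∀ w ∈ V, f v = f w → v = w) :
    IsPM V V E (V.toFinset.image (fun v => (f v, v))) := by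
  classical
  have hsurj : ∀ u ∈ V, ∃ v ∈ V, f v = u := by
    have h1 : V.toFinset.image f = V.toFinset := by
      apply Finset.eq_of_subset_of_card_le
      · intro u hu
        obtain ⟨v, hv, rfl⟩ := Finset.mem_image.1 hu
        exact List.mem_toFinset.2 (hV v (List.mem_toFinset.1 hv))
      · rw [Finset.card_image_of_injOn]
        intro v hv w hw h
        exact hinj v (List.mem_toFinset.1 hv) w (List.mem_toFinset.1 hw) h
    intro u hu
    have h2 : u ∈ V.toFinset.image f := by rw [h1]; exact List.mem_toFinset.2 hu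
    obtain ⟨v, hv, h⟩ := Finset.mem_image.1 h2
    exact ⟨v, List.mem_toFinset.1 hv, h⟩
  refine ⟨?_, ?_, ?_⟩
  · intro e he
    obtain ⟨v, hv, rfl⟩ := Finset.mem_image.1 he
    exact hf v (List.mem_toFinset.1 hv)
  · intro u hu
    obtain ⟨v, hv, rfl⟩ := hsurj u hu
    refine ⟨v, Finset.mem_image.2 ⟨v, List.mem_toFinset.2 hv, rfl⟩, ?_⟩
    intro w hw
    obtain ⟨w', hw', h⟩ := Finset.mem_image.1 hw
    simp only [Prod.mk.injEq] at h
    have := hinj w' (List.mem_toFinset.1 hw') v hv h.1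
    rw [← h.2, this]
  · intro v hv
    refine ⟨f v, Finset.mem_image.2 ⟨v, List.mem_toFinset.2 hv, rfl⟩, ?_⟩
    intro w hw
    obtain ⟨w', _, h⟩ := Finset.mem_image.1 hw
    simp only [Prod.mk.injEq] at h
    rw [← h.1, h.2]

/-! ### From satisfying assignments to matchings -/

section Fwd

variable {φ : F3} (hφ : Small φ) (τ : ℕ → Bool)

/-- the first matching, on the cycles: the neighbour in `U` of the vertex `y` of `V` -/
def g1 (L y : ℕ) : ℕ := if τ (y / L) then nxt L y else y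

/-- the complementary matching of the cycles -/
def g2 (L y : ℕ) : ℕ := if τ (y / L) then y else nxt L y

theorem nxt_div {L N y : ℕ} (hy : y < N * L) : nxt L y / L = y / L := by
  obtain ⟨s, k, hs, hk, rfl⟩ := exists_blk hy
  rw [nxt_blk hk, div_blk hk, div_blk (Nat.mod_lt _ (by omega))]

theorem g1_lt {L N y : ℕ} (hy : y < N * L) : g1 τ L y < N * L := by
  unfold g1
  split_ifs
  · exact nxt_lt hy
  · exact hy

theorem g2_lt {L N y : ℕ} (hy : y < N * L) : g2 τ L y < N * L := by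
  unfold g2
  split_ifs
  · exact hy
  · exact nxt_lt hy

theorem g1_div {L N y : ℕ} (hy : y < N * L) : g1 τ L y / L = y / L := by
  unfold g1
  split_ifs
  · exact nxt_div hy
  · rfl

theorem g2_div {L N y : ℕ} (hy : y < N * L) : g2 τ L y / L = y / L := by
  unfold g2
  split_ifs
  · rfl
  · exact nxt_div hy

theorem g1_inj {L N y y' : ℕ} (hy : y < N * L) (hy' : y' < N * L) (h : g1 τ L y = g1 τ L y') :
    y = y' := by
  have h1 : y / L = y' / L := by rw [← g1_div τ hy, ← g1_div τ hy', h]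
  unfold g1 at h
  rw [h1] at h
  split_ifs at h
  · exact nxt_inj hy hy' h
  · exact h

theorem g2_inj {L N y y' : ℕ} (hy : y < N * L) (hy' : y' < N * L) (h : g2 τ L y = g2 τ L y') :
    y = y' := by
  have h1 : y / L = y' / L := by rw [← g2_div τ hy, ← g2_div τ hy', h]
  unfold g2 at h
  rw [h1] at h
  split_ifs at h
  · exact h
  · exact nxt_inj hy hy' h

theorem g12_ne {L N y : ℕ} (hL : 2 ≤ L) (hy : y < N * L) : g1 τ L y ≠ g2 τ L y := by
  have := nxt_ne hL hy
  unfold g1 g2
  split_ifs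
  · exact this
  · exact this.symm

theorem lits_get {p q : Lit ℕ × ℕ} (hp : p ∈ lits φ) (hq : q ∈ lits φ) (h : p.2 = q.2) : p = q := by
  obtain ⟨l, t⟩ := p
  obtain ⟨l', t'⟩ := q
  simp only at h
  subst h
  rw [lits_unique hp hq]

include hφ in
theorem yC_lt {p : Lit ℕ × ℕ} (hp : p ∈ lits φ) :
    yC (6 * φ.length) p < 3 * φ.length * (6 * φ.length) := by
  have h1 := lits_lt hp
  exact blk_lt (by omega) (lits_var hφ hp)

theorem yC_inj {p q : Lit ℕ × ℕ} (hp : p ∈ lits φ) (hq : q ∈ lits φ)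
    (h : yC (6 * φ.length) p = yC (6 * φ.length) q) : p = q := by
  have h1 := lits_lt hp
  have h2 := lits_lt hq
  unfold yC at h
  have := (blk_inj (by omega) (by omega) h).2
  exact lits_get hp hq (by omega)

/-- for a true literal the edge of the slot is in the complementary matching -/
theorem g2_yC {p : Lit ℕ × ℕ} (hp : p ∈ lits φ) (hτ : τ p.1.2 = p.1.1) :
    g2 τ (6 * φ.length) (yC (6 * φ.length) p) = xC (6 * φ.length) p := by
  have h1 := lits_lt hp
  have hk : 2 * p.2 < 6 * φ.length := by omega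
  unfold g2
  have h2 : yC (6 * φ.length) p / (6 * φ.length) = p.1.2 := div_blk hk
  rw [h2, hτ]
  unfold xC
  cases hb : p.1.1
  · simp only [Bool.false_eq_true, if_false]
    unfold yC
    rw [nxt_blk hk, succ_mod hk, if_neg (by omega)]
    ring
  · simp only [if_true]
    rfl

end Fwd

theorem fwd {φ : F3} (hφ : Small φ) (h : SAT3 φ) : COL2PM (red φ) := by
  classical
  obtain ⟨τ, hτ⟩ := h
  refine ⟨valid_red hφ, ?_⟩
  set m := φ.length with hm
  set L := 6 * m with hL
  set N := 3 * m with hN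
  -- a true slot of every clause
  have hex : ∀ j, j < m → ∃ p ∈ lits φ, p.2 / 3 = j ∧ τ p.1.2 = p.1.1 := by
    intro j hj
    have hget : φ[j]? = some φ[j] := List.getElem?_eq_getElem hj
    rcases hτ φ[j] (List.getElem_mem hj) with h1 | h1 | h1
    · refine ⟨(φ[j].1, 3 * j), mem_lits.2 ⟨φ[j], ?_, ?_⟩, by simp only; omega, h1⟩
      · rw [show 3 * j / 3 = j by omega, hget]
      · rw [show 3 * j % 3 = 0 by omega]; rfl
    · refine ⟨(φ[j].2.1, 3 * j + 1), mem_lits.2 ⟨φ[j], ?_, ?_⟩, by simp only; omega, h1⟩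
      · rw [show (3 * j + 1) / 3 = j by omega, hget]
      · rw [show (3 * j + 1) % 3 = 1 by omega]; rfl
    · refine ⟨(φ[j].2.2, 3 * j + 2), mem_lits.2 ⟨φ[j], ?_, ?_⟩, by simp only; omega, h1⟩
      · rw [show (3 * j + 2) / 3 = j by omega, hget]
      · rw [show (3 * j + 2) % 3 = 2 by omega]; rfl
  choose! sl hsl1 hsl2 hsl3 using hex
  -- the two matchings as functions from V to U
  set f1 : ℕ → ℕ := fun v => if v % 2 = 0 then 2 * g1 τ L (v / 2) else v with hf1
  set f2 : ℕ → ℕ := fun v => if v % 2 = 0 then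
      (if ∃ j < m, v / 2 = yC L (sl j) then 2 * ((sl (Classical.epsilon (fun j => j < m ∧
        v / 2 = yC L (sl j)))).2 / 3) + 1 else 2 * g2 τ L (v / 2))
    else 2 * xC L (sl (v / 2)) with hf2
  have f1e : ∀ y, f1 (2 * y) = 2 * g1 τ L y := by
    intro y
    simp only [hf1]
    rw [if_pos (by omega), Nat.mul_div_cancel_left _ (by norm_num)]
  have f1o : ∀ j, f1 (2 * j + 1) = 2 * j + 1 := by
    intro j
    simp only [hf1]
    rw [if_neg (by omega)]
  have f2o : ∀ j, f2 (2 * j + 1) = 2 * xC L (sl j) := by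
    intro j
    simp only [hf2]
    rw [if_neg (by omega), show (2 * j + 1) / 2 = j by omega]
  have f2y : ∀ j < m, f2 (2 * yC L (sl j)) = 2 * j + 1 := by
    intro j hj
    simp only [hf2]
    rw [if_pos (by omega), Nat.mul_div_cancel_left _ (by norm_num), if_pos ⟨j, hj, rfl⟩]
    have h1 := Classical.epsilon_spec (p := fun j' => j' < m ∧ yC L (sl j) = yC L (sl j'))
      ⟨j, hj, rfl⟩
    set j' := Classical.epsilon (fun j' => j' < m ∧ yC L (sl j) = yC L (sl j')) with hj'
    have h2 := yC_inj (hsl1 j hj) (hsl1 j' h1.1) h1.2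
    rw [← h2, hsl2 j hj]
  have f2e : ∀ y, (¬ ∃ j < m, y = yC L (sl j)) → f2 (2 * y) = 2 * g2 τ L y := by
    intro y hy
    simp only [hf2]
    rw [if_pos (by omega), Nat.mul_div_cancel_left _ (by norm_num), if_neg hy]
  have hx : ∀ j < m, xC L (sl j) = g2 τ L (yC L (sl j)) := fun j hj =>
    (g2_yC τ (hsl1 j hj) (hsl3 j hj)).symm
  have hyl : ∀ j < m, yC L (sl j) < N * L := fun j hj => yC_lt hφ (hsl1 j hj)
  have hLpos : ∀ y, y < N * L → 2 ≤ L := by
    intro y hy
    rcases Nat.eq_zero_or_pos m with h | h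
    · exfalso
      rw [hN, h] at hy
      simp at hy
    · omega
  -- first matching
  have M1 : IsPM (ver m) (ver m) (C1 m) ((ver m).toFinset.image (fun v => (f1 v, v))) := by
    refine isPM_of_inj f1 ?_ ?_ ?_
    · intro v hv
      rw [mem_ver] at hv
      rw [mem_C1]
      rcases hv with ⟨y, hy, rfl⟩ | ⟨j, hj, rfl⟩
      · rw [f1e]
        unfold g1
        split_ifs
        · exact Or.inr (Or.inl ⟨y, hy, rfl, rfl⟩)
        · exact Or.inl ⟨y, hy, rfl, rfl⟩
      · rw [f1o]
        exact Or.inr (Or.inr ⟨j, hj, rfl, rfl⟩)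
    · intro v hv
      rw [mem_ver] at hv
      rcases hv with ⟨y, hy, rfl⟩ | ⟨j, hj, rfl⟩
      · rw [f1e, mem_ver]
        exact Or.inl ⟨_, g1_lt τ hy, rfl⟩
      · rw [f1o, mem_ver]
        exact Or.inr ⟨j, hj, rfl⟩
    · intro v hv w hw h
      rw [mem_ver] at hv hw
      rcases hv with ⟨y, hy, rfl⟩ | ⟨j, hj, rfl⟩ <;> rcases hw with ⟨y', hy', rfl⟩ | ⟨j', hj', rfl⟩
      · rw [f1e, f1e] at h
        rw [g1_inj τ hy hy' (Nat.eq_of_mul_eq_mul_left two_pos h)]
      · rw [f1e, f1o] at h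
        omega
      · rw [f1e, f1o] at h
        omega
      · rw [f1o, f1o] at h
        exact h
  -- second matching
  have M2 : IsPM (ver m) (ver m) (C1 m ++ C2 φ) ((ver m).toFinset.image (fun v => (f2 v, v))) := by
    refine isPM_of_inj f2 ?_ ?_ ?_
    · intro v hv
      rw [mem_ver] at hv
      rw [List.mem_append, mem_C1, mem_C2]
      rcases hv with ⟨y, hy, rfl⟩ | ⟨j, hj, rfl⟩
      · by_cases hc : ∃ j < m, y = yC L (sl j)
        · obtain ⟨j, hj, rfl⟩ := hc
          rw [f2y j hj]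
          exact Or.inr ⟨sl j, hsl1 j hj, Or.inl ⟨by rw [hsl2 j hj], rfl⟩⟩
        · rw [f2e y hc]
          left
          unfold g2
          split_ifs
          · exact Or.inl ⟨y, hy, rfl, rfl⟩
          · exact Or.inr (Or.inl ⟨y, hy, rfl, rfl⟩)
      · rw [f2o]
        exact Or.inr ⟨sl j, hsl1 j hj, Or.inr ⟨rfl, by rw [hsl2 j hj]⟩⟩
    · intro v hv
      rw [mem_ver] at hv
      rcases hv with ⟨y, hy, rfl⟩ | ⟨j, hj, rfl⟩
      · by_cases hc : ∃ j < m, y = yC L (sl j)
        · obtain ⟨j, hj, rfl⟩ := hc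
          rw [f2y j hj, mem_ver]
          exact Or.inr ⟨j, hj, rfl⟩
        · rw [f2e y hc, mem_ver]
          exact Or.inl ⟨_, g2_lt τ hy, rfl⟩
      · rw [f2o, mem_ver, hx j hj]
        exact Or.inl ⟨_, g2_lt τ (hyl j hj), rfl⟩
    · intro v hv w hw h
      rw [mem_ver] at hv hw
      rcases hv with ⟨y, hy, rfl⟩ | ⟨j, hj, rfl⟩ <;> rcases hw with ⟨y', hy', rfl⟩ | ⟨j', hj', rfl⟩
      · by_cases hc : ∃ j < m, y = yC L (sl j) <;> by_cases hc' : ∃ j < m, y' = yC L (sl j)
        · obtain ⟨j, hj, rfl⟩ := hc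
          obtain ⟨j', hj', rfl⟩ := hc'
          rw [f2y j hj, f2y j' hj'] at h
          obtain rfl : j = j' := by omega
          rfl
        · obtain ⟨j, hj, rfl⟩ := hc
          rw [f2y j hj, f2e y' hc'] at h
          omega
        · obtain ⟨j', hj', rfl⟩ := hc'
          rw [f2y j' hj', f2e y hc] at h
          omega
        · rw [f2e y hc, f2e y' hc'] at h
          rw [g2_inj τ hy hy' (Nat.eq_of_mul_eq_mul_left two_pos h)]
      · by_cases hc : ∃ j < m, y = yC L (sl j)
        · obtain ⟨j, hj, rfl⟩ := hc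
          rw [f2y j hj, f2o] at h
          omega
        · rw [f2e y hc, f2o, hx j' hj'] at h
          exfalso
          exact hc ⟨j', hj', g2_inj τ hy (hyl j' hj') (Nat.eq_of_mul_eq_mul_left two_pos h)⟩
      · by_cases hc : ∃ j < m, y' = yC L (sl j)
        · obtain ⟨j', hj', rfl⟩ := hc
          rw [f2y j' hj', f2o] at h
          omega
        · rw [f2e y' hc, f2o, hx j hj] at h
          exfalso
          exact hc ⟨j, hj, (g2_inj τ (hyl j hj) hy' (Nat.eq_of_mul_eq_mul_left two_pos h)).symm⟩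
      · rw [f2o, f2o, hx j hj, hx j' hj'] at h
        have h1 := g2_inj τ (hyl j hj) (hyl j' hj') (Nat.eq_of_mul_eq_mul_left two_pos h)
        have h2 := yC_inj (hsl1 j hj) (hsl1 j' hj') h1
        have h3 := hsl2 j hj
        have h4 := hsl2 j' hj'
        rw [h2] at h3
        omega
  refine ⟨_, _, ⟨fun e he => List.mem_append_left _ (M1.1 e he), M1.2⟩, M2, M1.1, ?_⟩
  rw [Finset.disjoint_left]
  intro e he he'
  obtain ⟨v, hv, rfl⟩ := Finset.mem_image.1 he
  obtain ⟨w, hw, h⟩ := Finset.mem_image.1 he'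
  simp only [Prod.mk.injEq] at h
  obtain ⟨h1, rfl⟩ := h
  rw [List.mem_toFinset, mem_ver] at hv
  rcases hv with ⟨y, hy, rfl⟩ | ⟨j, hj, rfl⟩
  · rw [f1e] at h1
    by_cases hc : ∃ j < m, y = yC L (sl j)
    · obtain ⟨j, hj, rfl⟩ := hc
      rw [f2y j hj] at h1
      omega
    · rw [f2e y hc] at h1
      exact g12_ne τ (hLpos y hy) hy (by omega)
  · rw [f1o, f2o] at h1
    omega

/-! ### From matchings to satisfying assignments -/

theorem bwd {φ : F3} (hφ : Small φ) (h : COL2PM (red φ)) : SAT3 φ := by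
  classical
  obtain ⟨-, M₁, M₂, ⟨-, hU1, hV1⟩, ⟨hE2, hU2, hV2⟩, hcol, hdis⟩ := h
  simp only [red] at hU1 hV1 hE2 hU2 hV2 hcol
  set m := φ.length with hm
  set L := 6 * m with hL
  set N := 3 * m with hN
  have hver : ∀ y, y < N * L → 2 * y ∈ ver m := fun y hy => mem_ver.2 (Or.inl ⟨y, hy, rfl⟩)
  -- the first matching on the cycles
  have key1 : ∀ y, y < N * L → (2 * y, 2 * y) ∈ M₁ ∨ (2 * nxt L y, 2 * y) ∈ M₁ := by
    intro y hy
    obtain ⟨u, hu, -⟩ := hV1 (2 * y) (hver y hy)
    have h1 := hcol _ hu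
    rw [mem_C1] at h1
    rcases h1 with ⟨x, _, h1, h2⟩ | ⟨x, _, h1, h2⟩ | ⟨x, _, h1, h2⟩
    · left
      have : u = 2 * y := by omega
      rwa [this] at hu
    · right
      obtain rfl : y = x := by omega
      rwa [h1] at hu
    · omega
  have unU : ∀ {a b b' : ℕ}, a ∈ ver m → (a, b) ∈ M₁ → (a, b') ∈ M₁ → b = b' := by
    intro a b b' ha h1 h2
    exact (hU1 a ha).unique h1 h2
  have unV : ∀ {a a' b : ℕ}, b ∈ ver m → (a, b) ∈ M₁ → (a', b) ∈ M₁ → a = a' := by
    intro a a' b ha h1 h2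
    exact (hV1 b ha).unique h1 h2
  have hLpos : ∀ y, y < N * L → 2 ≤ L := by
    intro y hy
    rcases Nat.eq_zero_or_pos m with h | h
    · exfalso
      rw [hN, h] at hy
      simp at hy
    · omega
  -- propagation
  have step : ∀ y, y < N * L → (2 * nxt L y, 2 * y) ∈ M₁ →
      (2 * nxt L (nxt L y), 2 * nxt L y) ∈ M₁ := by
    intro y hy h1
    rcases key1 (nxt L y) (nxt_lt hy) with h2 | h2
    · exfalso
      have := unU (hver _ (nxt_lt hy)) h1 h2
      exact nxt_ne (hLpos y hy) hy (by omega)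
    · exact h2
  have prop : ∀ s, s < N → ∀ d k, k < L → (2 * nxt L (s * L + k), 2 * (s * L + k)) ∈ M₁ →
      (2 * nxt L (s * L + (k + d) % L), 2 * (s * L + (k + d) % L)) ∈ M₁ := by
    intro s hs d
    induction d with
    | zero =>
      intro k hk h1
      rwa [add_zero, Nat.mod_eq_of_lt hk]
    | succ d ih =>
      intro k hk h1
      have h2 := ih k hk h1
      have hmod : (k + d) % L < L := Nat.mod_lt _ (by omega)
      have h3 := step _ (blk_lt hmod hs) h2
      rw [nxt_blk hmod] at h3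
      have h4 : ((k + d) % L + 1) % L = (k + (d + 1)) % L := by
        rw [Nat.mod_add_mod, add_assoc]
      rwa [h4] at h3
  have allOdd : ∀ s, s < N → ∀ k k', k < L → k' < L →
      (2 * nxt L (s * L + k), 2 * (s * L + k)) ∈ M₁ →
      (2 * nxt L (s * L + k'), 2 * (s * L + k')) ∈ M₁ := by
    intro s hs k k' hk hk' h1
    have h2 := prop s hs (L - k + k') k hk h1
    have h3 : (k + (L - k + k')) % L = k' := by
      rw [show k + (L - k + k') = L + k' by omega, Nat.add_mod_left, Nat.mod_eq_of_lt hk']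
    rwa [h3] at h2
  have allEven : ∀ s, s < N → ∀ k k', k < L → k' < L →
      (2 * (s * L + k), 2 * (s * L + k)) ∈ M₁ →
      (2 * (s * L + k'), 2 * (s * L + k')) ∈ M₁ := by
    intro s hs k k' hk hk' h1
    rcases key1 _ (blk_lt hk' hs) with h2 | h2
    · exact h2
    · exfalso
      have h3 := allOdd s hs k' k hk' hk h2
      have h4 := unV (hver _ (blk_lt hk hs)) h1 h3
      exact nxt_ne (hLpos _ (blk_lt hk hs)) (blk_lt hk hs) (by omega)
  refine ⟨fun s => decide ((2 * nxt L (s * L + 0), 2 * (s * L + 0)) ∈ M₁), ?_⟩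
  intro c hc
  obtain ⟨j, hj, rfl⟩ := List.getElem_of_mem hc
  have hjm : j < m := hj
  -- the clause vertex
  have hver' : 2 * j + 1 ∈ ver m := mem_ver.2 (Or.inr ⟨j, hjm, rfl⟩)
  obtain ⟨u, hu, -⟩ := hV2 (2 * j + 1) hver'
  have hclause : (2 * j + 1, 2 * j + 1) ∈ M₁ := by
    obtain ⟨w, hw, -⟩ := hV1 (2 * j + 1) hver'
    have h1 := hcol _ hw
    rw [mem_C1] at h1
    rcases h1 with ⟨x, _, h1, h2⟩ | ⟨x, _, h1, h2⟩ | ⟨x, _, h1, h2⟩
    · omega
    · omega
    · have : w = 2 * j + 1 := by omega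
      rwa [this] at hw
  have h1 := hE2 _ hu
  rw [List.mem_append, mem_C1, mem_C2] at h1
  rcases h1 with (⟨x, _, h1, h2⟩ | ⟨x, _, h1, h2⟩ | ⟨x, _, h1, h2⟩) | ⟨p, hp, ⟨h1, h2⟩ | ⟨h1, h2⟩⟩
  · omega
  · omega
  · exfalso
    have : u = 2 * j + 1 := by omega
    rw [this] at hu
    exact Finset.disjoint_left.1 hdis hclause hu
  · omega
  · have hpj : p.2 / 3 = j := by omega
    have hlt := lits_lt hp
    have hvar := lits_var hφ hp
    have hk0 : 2 * p.2 < L := by omega
    have hk1 : 2 * p.2 + 1 < L := by omega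
    have hL0 : 0 < L := by omega
    subst h1
    -- the literal is true
    have htrue : decide ((2 * nxt L (p.1.2 * L + 0), 2 * (p.1.2 * L + 0)) ∈ M₁) = p.1.1 := by
      cases hb : p.1.1
      · -- negative literal
        rw [decide_eq_false_iff_not]
        intro hodd
        have hx : xC L p = p.1.2 * L + (2 * p.2 + 1) := by
          unfold xC
          rw [hb]
          simp only [Bool.false_eq_true, if_false]
          ring
        rw [hx] at hu
        -- the vertex of V at the same place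
        obtain ⟨w, hw, -⟩ := hV2 (2 * (p.1.2 * L + (2 * p.2 + 1))) (hver _ (blk_lt hk1 hvar))
        have h3 := hE2 _ hw
        rw [List.mem_append, mem_C1, mem_C2] at h3
        rcases h3 with (⟨x, _, h3, h4⟩ | ⟨x, _, h3, h4⟩ | ⟨x, _, h3, h4⟩) |
          ⟨q, hq, ⟨h3, h4⟩ | ⟨h3, h4⟩⟩
        · have h5 : w = 2 * (p.1.2 * L + (2 * p.2 + 1)) := by omega
          rw [h5] at hw
          have := (hU2 _ (hver _ (blk_lt hk1 hvar))).unique hw hu
          omega
        · obtain rfl : p.1.2 * L + (2 * p.2 + 1) = x := by omega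
          rw [h3] at hw
          exact Finset.disjoint_left.1 hdis (allOdd _ hvar 0 _ hL0 hk1 hodd) hw
        · omega
        · have hq1 := lits_lt hq
          have h5 : p.1.2 * L + (2 * p.2 + 1) = q.1.2 * L + 2 * q.2 :=
            Nat.eq_of_mul_eq_mul_left two_pos h4
          have := (blk_inj hk1 (by omega) h5).2
          omega
        · omega
      · -- positive literal
        rw [decide_eq_true_iff]
        by_contra hodd
        have heven : (2 * (p.1.2 * L + 0), 2 * (p.1.2 * L + 0)) ∈ M₁ := by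
          rcases key1 _ (blk_lt hL0 hvar) with h | h
          · exact h
          · exact absurd h hodd
        have hx : xC L p = p.1.2 * L + 2 * p.2 := by
          unfold xC
          rw [hb]
          simp
        rw [hx] at hu
        -- the predecessor
        set k' := (2 * p.2 + (L - 1)) % L with hk'
        have hk'L : k' < L := Nat.mod_lt _ hL0
        have hk'v : k' = if p.2 = 0 then L - 1 else 2 * p.2 - 1 := by
          rw [hk']
          split_ifs with h0
          · rw [h0, mul_zero, zero_add, Nat.mod_eq_of_lt (by omega)]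
          · rw [show 2 * p.2 + (L - 1) = L + (2 * p.2 - 1) by omega, Nat.add_mod_left,
              Nat.mod_eq_of_lt (by omega)]
        have hnx : nxt L (p.1.2 * L + k') = p.1.2 * L + 2 * p.2 := by
          rw [nxt_blk hk'L, succ_mod hk'L]
          split_ifs at hk'v ⊢ <;> omega
        obtain ⟨w, hw, -⟩ := hV2 (2 * (p.1.2 * L + k')) (hver _ (blk_lt hk'L hvar))
        have h3 := hE2 _ hw
        rw [List.mem_append, mem_C1, mem_C2] at h3
        rcases h3 with (⟨x, _, h3, h4⟩ | ⟨x, _, h3, h4⟩ | ⟨x, _, h3, h4⟩) |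
          ⟨q, hq, ⟨h3, h4⟩ | ⟨h3, h4⟩⟩
        · have h5 : w = 2 * (p.1.2 * L + k') := by omega
          rw [h5] at hw
          exact Finset.disjoint_left.1 hdis (allEven _ hvar 0 _ hL0 hk'L heven) hw
        · obtain rfl : p.1.2 * L + k' = x := by omega
          rw [h3, hnx] at hw
          have := (hU2 _ (hver _ (blk_lt hk0 hvar))).unique hw hu
          omega
        · omega
        · have hq1 := lits_lt hq
          have h5 : p.1.2 * L + k' = q.1.2 * L + 2 * q.2 :=
            Nat.eq_of_mul_eq_mul_left two_pos h4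
          have := (blk_inj hk'L (by omega) h5).2
          split_ifs at hk'v <;> omega
        · omega
    -- the slot belongs to the clause
    obtain ⟨l, t⟩ := p
    obtain ⟨c, hc', hl⟩ := mem_lits.1 hp
    simp only at hpj htrue
    rw [hpj, List.getElem?_eq_getElem hj] at hc'
    obtain rfl := Option.some.inj hc'
    have h2 := List.mem_of_getElem? hl
    simp only [List.mem_cons, List.not_mem_nil, or_false] at h2
    rcases h2 with rfl | rfl | rfl
    · exact Or.inl htrue
    · exact Or.inr (Or.inl htrue)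
    · exact Or.inr (Or.inr htrue)

theorem rngA_poly {α : Type} [TEnc α] {f : α → F3} (hf : NPC.Poly f) :
    NPC.Poly (fun a => List.range (3 * (f a).length * (6 * (f a).length))) :=
  UPoly.range (UPoly.mul (UPoly.mul (UPoly.const 3) (UPoly.length hf))
    (UPoly.mul (UPoly.const 6) (UPoly.length hf)))

theorem rngB_poly {α : Type} [TEnc α] {f : α → F3} (hf : NPC.Poly f) :
    NPC.Poly (fun a => List.range (f a).length) := (UPoly.length hf).range

theorem lits_poly' {α : Type} [TEnc α] {f : α → F3} (hf : NPC.Poly f) :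
    NPC.Poly (fun a => lits (f a)) := lits_poly.comp hf

attribute [local fun_prop] rngA_poly rngB_poly lits_poly'

theorem red_poly : NPC.Poly red := by
  unfold red ver C1 C2 nxt yC xC
  fun_prop

theorem hard : NPHardP COL2PM :=
  (hardPr_small.trans (Pr' := fun _ => True) red_poly (fun _ _ => trivial)
    (fun φ h => ⟨fwd h.1, bwd h.1⟩)).toHardI.toNPHardP

/-! ### Membership in NP -/

/-- the tests of a certificate -/
def Cert (I : Inst) (w : List (ℕ × ℕ) × List (ℕ × ℕ)) : Prop :=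
  (I.1.1.Nodup ∧ I.1.2.Nodup ∧ (∀ e ∈ I.2.1 ++ I.2.2, e.1 ∈ I.1.1 ∧ e.2 ∈ I.1.2) ∧
    (I.2.1 ++ I.2.2).Nodup) ∧ w.1.Nodup ∧ w.2.Nodup ∧
    (∀ e ∈ w.1, e ∈ I.2.1) ∧ (∀ e ∈ w.2, e ∈ I.2.1 ++ I.2.2) ∧ (∀ e ∈ w.1, e ∉ w.2) ∧
    (∀ u ∈ I.1.1, ∃ e ∈ w.1, e.1 = u) ∧ (∀ u ∈ I.1.1, ∃ e ∈ w.2, e.1 = u) ∧
    (∀ u ∈ I.1.2, ∃ e ∈ w.1, e.2 = u) ∧ (∀ u ∈ I.1.2, ∃ e ∈ w.2, e.2 = u) ∧
    (∀ e ∈ w.1, ∀ e' ∈ w.1, (e.1 = e'.1 ∨ e.2 = e'.2) → e = e') ∧
    (∀ e ∈ w.2, ∀ e' ∈ w.2, (e.1 = e'.1 ∨ e.2 = e'.2) → e = e')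

end Pool.Agent.X130.PM2
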