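import Mathlib
import Pool.Agent.X130.PM2.Corr
import Pool.Agent.X130.Util

set_option autoImplicit false

/-!
# COL-2PM is in NP
-/

namespace Pool.Agent.X130.PM2

open Pool.Agent.NPC Pool.Agent.NPC.H634R2

theorem cert_iff (I : Inst) : COL2PM I ↔ ∃ w, Cert I w := by
  classical
  constructor
  · rintro ⟨hV, M₁, M₂, ⟨hE1, hU1, hV1⟩, ⟨hE2, hU2, hV2⟩, hcol, hdis⟩
    refine ⟨(M₁.toList, M₂.toList), hV, M₁.nodup_toList, M₂.nodup_toList,
      fun e he => hcol e (Finset.mem_toList.1 he), fun e he => hE2 e (Finset.mem_toList.1 he),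
      fun e he he' => Finset.disjoint_left.1 hdis (Finset.mem_toList.1 he) (Finset.mem_toList.1 he'),
      ?_, ?_, ?_, ?_, ?_, ?_⟩
    · intro u hu
      obtain ⟨v, hv, -⟩ := hU1 u hu
      exact ⟨(u, v), Finset.mem_toList.2 hv, rfl⟩
    · intro u hu
      obtain ⟨v, hv, -⟩ := hU2 u hu
      exact ⟨(u, v), Finset.mem_toList.2 hv, rfl⟩
    · intro u hu
      obtain ⟨v, hv, -⟩ := hV1 u hu
      exact ⟨(v, u), Finset.mem_toList.2 hv, rfl⟩
    · intro u hu
      obtain ⟨v, hv, -⟩ := hV2 u hu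
      exact ⟨(v, u), Finset.mem_toList.2 hv, rfl⟩
    · rintro ⟨a, b⟩ he ⟨a', b'⟩ he' h
      rw [Finset.mem_toList] at he he'
      simp only at h
      have h1 := hV.2.2.1 _ (hE1 _ he)
      rcases h with rfl | rfl
      · rw [(hU1 a h1.1).unique he he']
      · rw [(hV1 b h1.2).unique he he']
    · rintro ⟨a, b⟩ he ⟨a', b'⟩ he' h
      rw [Finset.mem_toList] at he he'
      simp only at h
      have h1 := hV.2.2.1 _ (hE2 _ he)
      rcases h with rfl | rfl
      · rw [(hU2 a h1.1).unique he he']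
      · rw [(hV2 b h1.2).unique he he']
  · rintro ⟨⟨L₁, L₂⟩, hV, h1, h2, h3, h4, h5, h6, h7, h8, h9, h10, h11⟩
    simp only at h1 h2 h3 h4 h5 h6 h7 h8 h9 h10 h11
    refine ⟨hV, L₁.toFinset, L₂.toFinset, ⟨?_, ?_, ?_⟩, ⟨?_, ?_, ?_⟩, ?_, ?_⟩
    · exact fun e he => List.mem_append_left _ (h3 e (List.mem_toFinset.1 he))
    · intro u hu
      obtain ⟨⟨a, b⟩, he, rfl⟩ := h6 u hu
      refine ⟨b, List.mem_toFinset.2 he, fun b' hb' => ?_⟩
      have := h10 _ he _ (List.mem_toFinset.1 hb') (Or.inl rfl)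
      simp only [Prod.mk.injEq, true_and] at this
      exact this.symm
    · intro u hu
      obtain ⟨⟨a, b⟩, he, rfl⟩ := h8 u hu
      refine ⟨a, List.mem_toFinset.2 he, fun b' hb' => ?_⟩
      have := h10 _ he _ (List.mem_toFinset.1 hb') (Or.inr rfl)
      simp only [Prod.mk.injEq, and_true] at this
      exact this.symm
    · exact fun e he => h4 e (List.mem_toFinset.1 he)
    · intro u hu
      obtain ⟨⟨a, b⟩, he, rfl⟩ := h7 u hu
      refine ⟨b, List.mem_toFinset.2 he, fun b' hb' => ?_⟩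
      have := h11 _ he _ (List.mem_toFinset.1 hb') (Or.inl rfl)
      simp only [Prod.mk.injEq, true_and] at this
      exact this.symm
    · intro u hu
      obtain ⟨⟨a, b⟩, he, rfl⟩ := h9 u hu
      refine ⟨a, List.mem_toFinset.2 he, fun b' hb' => ?_⟩
      have := h11 _ he _ (List.mem_toFinset.1 hb') (Or.inr rfl)
      simp only [Prod.mk.injEq, and_true] at this
      exact this.symm
    · exact fun e he => h3 e (List.mem_toFinset.1 he)
    · rw [Finset.disjoint_left]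
      intro e he he'
      exact h5 e (List.mem_toFinset.1 he) (List.mem_toFinset.1 he')

theorem cert_pp : PP (fun x : Inst × (List (ℕ × ℕ) × List (ℕ × ℕ)) => Cert x.1 x.2) := by
  unfold Cert
  refine PP.and (PP.and (Y592.OP.pp_nodup (by fun_prop)) (PP.and (Y592.OP.pp_nodup (by fun_prop))
    (PP.and ?_ (Y592.OP.pp_nodup (by fun_prop))))) (PP.and (Y592.OP.pp_nodup (by fun_prop))
    (PP.and (Y592.OP.pp_nodup (by fun_prop)) (PP.and ?_ (PP.and ?_ (PP.and ?_ (PP.and ?_ (PP.and ?_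
    (PP.and ?_ (PP.and ?_ (PP.and ?_ ?_))))))))))
  · exact PP.ball (by fun_prop) (PP.and (PP.mem (by fun_prop) (by fun_prop))
      (PP.mem (by fun_prop) (by fun_prop)))
  · exact PP.ball (by fun_prop) (PP.mem (by fun_prop) (by fun_prop))
  · exact PP.ball (by fun_prop) (PP.mem (by fun_prop) (by fun_prop))
  · exact PP.ball (by fun_prop) (PP.not (PP.mem (by fun_prop) (by fun_prop)))
  · exact PP.ball (by fun_prop) (PP.bex (by fun_prop) (PP.eq (by fun_prop) (by fun_prop)))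
  · exact PP.ball (by fun_prop) (PP.bex (by fun_prop) (PP.eq (by fun_prop) (by fun_prop)))
  · exact PP.ball (by fun_prop) (PP.bex (by fun_prop) (PP.eq (by fun_prop) (by fun_prop)))
  · exact PP.ball (by fun_prop) (PP.bex (by fun_prop) (PP.eq (by fun_prop) (by fun_prop)))
  · exact PP.ball (by fun_prop) (PP.ball (by fun_prop) (pp_imp (PP.or
      (PP.eq (by fun_prop) (by fun_prop)) (PP.eq (by fun_prop) (by fun_prop)))
      (PP.eq (by fun_prop) (by fun_prop))))
  · exact PP.ball (by fun_prop) (PP.ball (by fun_prop) (pp_imp (PP.or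
      (PP.eq (by fun_prop) (by fun_prop)) (PP.eq (by fun_prop) (by fun_prop)))
      (PP.eq (by fun_prop) (by fun_prop))))

theorem cert_short {I : Inst} {w : List (ℕ × ℕ) × List (ℕ × ℕ)} (h : Cert I w) :
    sz w ≤ (2 * (Polynomial.X * (Polynomial.X + 1) + 1) + 1 : Polynomial ℕ).eval (sz I) := by
  obtain ⟨⟨U, V⟩, E₁, E₂⟩ := I
  obtain ⟨L₁, L₂⟩ := w
  obtain ⟨hV, h1, h2, h3, h4, -⟩ := h
  simp only at h1 h2 h3 h4
  simp only [Polynomial.eval_add, Polynomial.eval_mul, Polynomial.eval_X, Polynomial.eval_one,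
    Polynomial.eval_ofNat]
  have hsz : sz ((U, V), (E₁, E₂)) = sz U + sz V + sz E₁ + sz E₂ + 3 := by
    simp only [sz_pair]
    omega
  set s := sz ((U, V), (E₁, E₂)) with hs
  have hap := sz_append E₁ E₂
  have h5 : sz L₁ ≤ s * (s + 1) + 1 := sz_sub h1 (V := E₁) h3 (by omega)
  have h6 : sz L₂ ≤ s * (s + 1) + 1 := sz_sub h2 (V := E₁ ++ E₂) h4 (by omega)
  rw [sz_pair]
  omega

theorem mem : InNPP COL2PM := by
  obtain ⟨b, hb, hb'⟩ := cert_pp
  refine inNPP_of (β := List (ℕ × ℕ) × List (ℕ × ℕ)) hb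
    (2 * (Polynomial.X * (Polynomial.X + 1) + 1) + 1 : Polynomial ℕ) (fun I => ?_)
  rw [cert_iff]
  exact exists_congr fun w => ⟨fun h => ⟨cert_short h, (hb' (I, w)).2 h⟩, fun h => (hb' (I, w)).1 h.2⟩

end Pool.Agent.X130.PM2
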